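import Pool.Agent.H79.RD.Targets

/-!
# AG: an assignment with given block values
-/

set_option autoImplicit false

namespace Pool.Agent.H74.RD

open Pool.Agent.H79.RD

theorem pf_AG : T_AG := by
  classical
  intro V _ N b φ hφ z ζ
  refine ⟨fun u => if h : ∃ q : Fin N × Fin b, φ q.1 q.2 = u then ζ h.choose.1 h.choose.2
    else z u, ?_, ?_⟩
  · funext i j
    have h : ∃ q : Fin N × Fin b, φ q.1 q.2 = φ i j := ⟨(i, j), rfl⟩
    have h2 := hφ _ _ _ _ h.choose_spec
    show (if h : ∃ q : Fin N × Fin b, φ q.1 q.2 = φ i j then ζ h.choose.1 h.choose.2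
      else z (φ i j)) = ζ i j
    rw [dif_pos h, h2.1, h2.2]
  · intro u hu
    refine dif_neg ?_
    rintro ⟨q, hq⟩
    exact hu q.1 q.2 hq.symm

end Pool.Agent.H74.RD
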