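import Pool.Agent.H79.RD.Targets

/-!
# P1: `(1 - 1/T)^M ≤ 2^(-s)`
-/

set_option autoImplicit false

namespace Pool.Agent.H74.RD

open Pool.Agent.H79.RD

theorem two_mul_pow_le (n : ℕ) : 2 * n ^ (n + 1) ≤ (n + 1) ^ (n + 1) := by
  rcases Nat.eq_zero_or_pos n with rfl | hn
  · simp
  · have hn' : (0 : ℝ) < n := by exact_mod_cast hn
    have h1 := one_add_mul_le_pow (a := (1 : ℝ) / n) (by
      have : (0 : ℝ) ≤ 1 / n := by positivity
      linarith) (n + 1)
    have h2 : (2 : ℝ) ≤ 1 + ((n + 1 : ℕ) : ℝ) * (1 / n) := by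
      have h3 : ((n + 1 : ℕ) : ℝ) * (1 / n) = 1 + 1 / n := by
        push_cast
        field_simp
      rw [h3]
      have : (0 : ℝ) ≤ 1 / n := by positivity
      linarith
    have h4 : (2 : ℝ) * (n : ℝ) ^ (n + 1) ≤ ((n : ℝ) + 1) ^ (n + 1) := by
      calc (2 : ℝ) * (n : ℝ) ^ (n + 1) ≤ (1 + 1 / n) ^ (n + 1) * (n : ℝ) ^ (n + 1) := by
            gcongr
            exact h2.trans h1
        _ = ((1 + 1 / n) * n) ^ (n + 1) := by rw [mul_pow]
        _ = ((n : ℝ) + 1) ^ (n + 1) := by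
            congr 1
            field_simp
    exact_mod_cast h4

theorem pf_P1 : T_P1 := by
  intro T M s hT hM
  obtain ⟨n, rfl⟩ : ∃ n, T = n + 1 := ⟨T - 1, by omega⟩
  obtain ⟨r, rfl⟩ := Nat.exists_eq_add_of_le hM
  rw [Nat.add_sub_cancel]
  calc 2 ^ s * n ^ ((n + 1) * s + r) = (2 * n ^ (n + 1)) ^ s * n ^ r := by
        rw [pow_add, pow_mul, mul_pow]
        ring
    _ ≤ ((n + 1) ^ (n + 1)) ^ s * (n + 1) ^ r := by
        gcongr
        · exact two_mul_pow_le n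
        · omega
    _ = (n + 1) ^ ((n + 1) * s + r) := by rw [pow_add (n + 1) ((n + 1) * s) r, pow_mul]

end Pool.Agent.H74.RD
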